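import Mathlib
import Pool.Agent.V11211.WS8

/-! Weinstein conjecture: closed Reeb orbits for Reeb flows with an invariant basic one-form having a
nondegenerate zero, in particular for Reeb flows with a first integral (possibly multivalued) having a
critical point whose Hessian is nondegenerate transversally to the Reeb field; two closed orbits if all
critical points of a first integral are of this kind. -/

open scoped Topology ContDiff Manifold
open Pool.Agent.H826R2.WStmt Pool.Agent.V11211.WS

namespace Pool.Agent.Results.MP_e3ee0c_gt.FirstIntegrals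

universe u v

theorem result
    {E : Type u} [NormedAddCommGroup E] [NormedSpace ℝ E] [FiniteDimensional ℝ E]
    -- a closed manifold `M` with a contact form `α` and its Reeb field `R`
    {M : Type v} [TopologicalSpace M] [ChartedSpace E M] [IsManifold 𝓘(ℝ, E) ∞ M]
    [T2Space M] [CompactSpace M]
    (α : M → Cov E) (hα : IsContact α) (R : M → E) (hR : IsReeb α R) :
    -- (1) the Reeb orbit of a nondegenerate zero of a one-form `η` with `η(R) = 0`, `dη(R, ·) = 0` is
    -- periodic
    (∀ η : M → Cov E, BasicInvariant R η → ∀ p : M, NondegenerateZero R η p →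
      ∃ (c : ℝ → M) (T : ℝ), c 0 = p ∧ IsPeriodicOrbit R c T) ∧
    -- (2) the Reeb orbit of a nondegenerate critical point of a first integral is periodic
    (∀ f : M → ℝ, ContMDiff 𝓘(ℝ, E) 𝓘(ℝ, ℝ) ∞ f →
      (∀ x, D (E := E) (E' := ℝ) f x (R x) = 0) → ∀ p : M, NondegenerateCritical R f p →
      ∃ (c : ℝ → M) (T : ℝ), c 0 = p ∧ IsPeriodicOrbit R c T) ∧
    -- (3) if all critical points of a first integral are nondegenerate, and the dimension is at least
    -- two, there are two disjoint periodic orbits
    (∀ f : M → ℝ, ContMDiff 𝓘(ℝ, E) 𝓘(ℝ, ℝ) ∞ f →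
      (∀ x, D (E := E) (E' := ℝ) f x (R x) = 0) →
      (∀ p, D (E := E) (E' := ℝ) f p = 0 → NondegenerateCritical R f p) →
      1 < Module.finrank ℝ E → Nonempty M →
      ∃ (c₁ c₂ : ℝ → M) (T₁ T₂ : ℝ), IsPeriodicOrbit R c₁ T₁ ∧ IsPeriodicOrbit R c₂ T₂ ∧
        Disjoint (Set.range c₁) (Set.range c₂)) :=
  ⟨fun η hη p hp => exists_periodic_zero α hα R hR η hη p hp,
    fun f hf hfR p hp => exists_periodic_critical α hα R hR f hf hfR p hp,
    fun f hf hfR hp hdim _ => exists_two_periodic hdim α hα R hR f hf hfR hp⟩

end Pool.Agent.Results.MP_e3ee0c_gt.FirstIntegrals
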