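import Mathlib
import Pool.Agent.V11211.WS4

/-! Weinstein conjecture: closed Reeb orbits for contact forms with discrete symmetries, possibly
hidden ones (defined on a covering, not descending to the manifold), having a transversally
nondegenerate fixed point; in particular for contact forms with a finite group of symmetries having a
fixed point at which no vector of the contact hyperplane is fixed. -/

open scoped Topology ContDiff Manifold
open Pool.Agent.H826R2.WStmt Pool.Agent.V11211.WS

namespace Pool.Agent.Results.MP_e3ee0c_gt.HiddenSymmetries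

universe u v w x y

theorem result
    {E : Type u} [NormedAddCommGroup E] [NormedSpace ℝ E] [FiniteDimensional ℝ E]
    -- a closed manifold `M` with a contact form `α` and its Reeb field `R`
    {M : Type v} [TopologicalSpace M] [ChartedSpace E M] [IsManifold 𝓘(ℝ, E) ∞ M]
    [T2Space M] [CompactSpace M]
    (α : M → Cov E) (hα : IsContact α) (R : M → E) (hR : IsReeb α R) :
    -- (1) a regular covering `q : P → M` with deck group `Γ`
    (∀ {P : Type w} [TopologicalSpace P] [ChartedSpace E P] [IsManifold 𝓘(ℝ, E) ∞ P] [T2Space P]
      {Γ : Type x} [Group Γ] [MulAction Γ P] (q : P → M), IsQuotientMap E q Γ →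
      -- a locally finite set `𝒢` of smooth maps `P → P` preserving the lifted Reeb field
      ∀ 𝒢 : Set (P → P), HiddenSymmetries Γ q R 𝒢 →
      -- finitely many elements of `𝒢` which fix the point `p` and are transversally nondegenerate
      ∀ {k : ℕ} (g : Fin k → P → P), (∀ i, g i ∈ 𝒢) → ∀ p : P, (∀ i, g i p = p) →
      TransverselyNondegenerate q R g p →
      -- then the Reeb orbit of `q p` is periodic
      ∃ (c : ℝ → M) (T : ℝ), c 0 = q p ∧ IsPeriodicOrbit R c T) ∧
    -- (2) a finite group `G` acting on `M` by smooth maps preserving `α`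
    (∀ {G : Type y} [Group G] [Finite G] [MulAction G M],
      (∀ g : G, ContMDiff 𝓘(ℝ, E) 𝓘(ℝ, E) ∞ (fun x : M => g • x)) →
      (∀ g : G, pull (fun x : M => g • x) α = α) →
      -- fixing the point `p`, but no nonzero vector of the contact hyperplane at `p`
      ∀ p : M, (∀ g : G, g • p = p) →
      (∀ v : E, ev (α p) v = 0 →
        (∀ g : G, D (E' := E) (fun x : M => g • x) p v = v) → v = 0) →
      -- then the Reeb orbit of `p` is periodic
      ∃ (c : ℝ → M) (T : ℝ), c 0 = p ∧ IsPeriodicOrbit R c T) :=
  ⟨fun q hq 𝒢 h𝒢 _ g hg p hp hn => exists_periodic_hidden α hα R hR q hq 𝒢 h𝒢 g hg p hp hn,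
    fun hs hpr p hp hn => exists_periodic_finite α hα R hR hs hpr p hp hn⟩

end Pool.Agent.Results.MP_e3ee0c_gt.HiddenSymmetries
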