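import Mathlib
import Pool.Agent.V11208.VM.Stmt

/-! Weinstein conjecture: closed Reeb orbits for contact forms with a local torus symmetry of any
rank whose monodromy group acts on a sum of symmetric powers `Sym^(d i) ℝ^(n i)` through matrices in
`GL(n i, ℝ)`, where these matrices are arbitrary if `d i > n i` and similarities if `d i ≤ n i`. There
is no hypothesis on the momentum. -/

open scoped Topology ContDiff Manifold
open Pool.Agent.H826R2.WStmt Pool.Agent.V11208.VM

namespace Pool.Agent.Results.MP_e3ee0c_gt.VeroneseMonodromy

universe u v w x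

theorem result
    {E : Type u} [NormedAddCommGroup E] [NormedSpace ℝ E] [FiniteDimensional ℝ E]
    -- a closed manifold `M` with a contact form `α` and its Reeb field `R`
    {M : Type v} [TopologicalSpace M] [ChartedSpace E M] [IsManifold 𝓘(ℝ, E) ∞ M]
    [T2Space M] [CompactSpace M]
    (α : M → Cov E) (hα : IsContact α) (R : M → E) (hR : IsReeb α R)
    -- a regular covering `q : P → M` with deck group `Γ`
    {P : Type w} [TopologicalSpace P] [ChartedSpace E P] [IsManifold 𝓘(ℝ, E) ∞ P]
    [T2Space P] [SigmaCompactSpace P] [Nonempty P]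
    {Γ : Type x} [Group Γ] [MulAction Γ P] (q : P → M) (hq : IsQuotientMap E q Γ)
    -- a locally free action of an `m`-torus on `P`, `m ≥ 1`, preserving the lifted contact form
    {m : ℕ} (hm : 0 < m) (A : TorusAction (pull (E := E) q α) m)
    -- which is normalised by the deck group
    (hA : Normalises Γ A.act)
    -- `ℝ^m` is the sum of the symmetric powers `Sym^(d i) ℝ^(n i)`
    {ι : Type} [Fintype ι] {n d : ι → ℕ} (hn : ∀ i, 0 < n i) (hd : ∀ i, 0 < d i)
    (b : Module.Basis (Σ i, Idx (n i) (d i)) ℝ (Fin m → ℝ))
    -- and the monodromy acts on the powers of the vectors of `ℝ^(n i)` through `GL(n i, ℝ)`, through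
    -- similarities if `d i ≤ n i`
    (hAb : MonodromyActsOnPowers Γ A.act b) :
    -- the Reeb flow of `α` on `M` has a periodic orbit
    ∃ (c : ℝ → M) (T : ℝ), IsPeriodicOrbit R c T :=
  exists_periodic_powers α hα R hR q hq hm A hA hn hd b hAb

end Pool.Agent.Results.MP_e3ee0c_gt.VeroneseMonodromy
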